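import Mathlib

/-!
# MP_0b9f2e_nt: the lower limit of `M_k / k` is at least `1 - 1/e`

A logarithmic function of length `k` is determined by arbitrary values in `ℤ/kℤ` at the primes
`p ≤ k`.  We average over all choices of these values.  Revealing the value at one prime `p` at
a time, the set of residues not yet covered shrinks (on average) by the factor
`1 - |B_p| / k`, where `B_p` is the image of the integers up to `k / p` all of whose prime factors
are less than `p`; a second moment computation shows that `B_p` has nearly full size when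
`p ≥ y`.  Summing over the primes `y ≤ p ≤ k` one gets that the average
proportion of uncovered residues is at most `1/e + o(1)`.
-/

set_option autoImplicit false

namespace Pool.Agent.Results.MP_0b9f2e_nt.LiminfMk

open Finset Filter

/-! ### Random logarithmic functions -/

/-- value at `n` of the completely additive function with value `x p` at the prime `p ≤ k`. -/
def F {k : ℕ} (x : Fin (k + 1) → ZMod k) (n : ℕ) : ZMod k :=
  ∑ i : Fin (k + 1), (n.factorization (i : ℕ)) • x i

lemma F_mul {k : ℕ} (x : Fin (k + 1) → ZMod k) {m n : ℕ} (hm : m ≠ 0) (hn : n ≠ 0) :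
    F x (m * n) = F x m + F x n := by
  unfold F
  rw [← Finset.sum_add_distrib]
  refine Finset.sum_congr rfl fun i _ => ?_
  rw [Nat.factorization_mul hm hn, Finsupp.add_apply, add_nsmul]

lemma F_prime {k : ℕ} (x : Fin (k + 1) → ZMod k) {p : ℕ} (hp : p.Prime) (hpk : p < k + 1) :
    F x p = x ⟨p, hpk⟩ := by
  unfold F
  rw [Finset.sum_eq_single (⟨p, hpk⟩ : Fin (k+1))]
  · simp [hp.factorization_self]
  · intro i _ hi
    have : (i : ℕ) ≠ p := fun h => hi (Fin.ext h)
    rw [hp.factorization, Finsupp.single_apply, if_neg (fun h => this h.symm), zero_nsmul]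
  · intro h; exact absurd (Finset.mem_univ _) h

lemma F_shift {k : ℕ} (x : Fin (k + 1) → ZMod k) (i : Fin (k + 1)) (c : ZMod k) (n : ℕ) :
    F (x + Pi.single i c) n = F x n + (n.factorization (i : ℕ)) • c := by
  unfold F
  simp only [Pi.add_apply, smul_add, Finset.sum_add_distrib]
  congr 1
  rw [Finset.sum_eq_single i]
  · simp
  · intro j _ hj
    simp [Pi.single_eq_of_ne hj]
  · intro h; exact absurd (Finset.mem_univ _) h

lemma sum_shift {k : ℕ} [NeZero k] (i : Fin (k + 1)) (Φ : (Fin (k + 1) → ZMod k) → ℝ) :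
    ∑ x : Fin (k + 1) → ZMod k, ∑ c : ZMod k, Φ (x + Pi.single i c) = k * ∑ x, Φ x := by
  rw [Finset.sum_comm]
  have : ∀ c : ZMod k, ∑ x : Fin (k + 1) → ZMod k, Φ (x + Pi.single i c) = ∑ x, Φ x := fun c =>
    Fintype.sum_equiv (Equiv.addRight (Pi.single i c : Fin (k + 1) → ZMod k)) _ _ (fun x => rfl)
  simp [this, ZMod.card]

/-- the number of solutions of `e c = d` in `ZMod k` is at most `e`. -/
lemma card_smul_eq_le {k : ℕ} [NeZero k] (e : ℕ) (he : 0 < e) (d : ZMod k) :
    (Finset.univ.filter fun c : ZMod k => e • c = d).card ≤ e := by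
  classical
  rcases (Finset.univ.filter fun c : ZMod k => e • c = d).eq_empty_or_nonempty with h | ⟨c0, hc0⟩
  · rw [h]; simp
  · have hc0' : e • c0 = d := by simpa using hc0
    refine le_trans ?_ (IsAddCyclic.card_nsmul_eq_zero_le (α := ZMod k) he)
    refine Finset.card_le_card_of_injOn (fun c => c - c0) ?_ ?_
    · intro c hc
      have hc' : e • c = d := by simpa using hc
      have : e • (c - c0) = 0 := by rw [smul_sub, hc', hc0', sub_self]
      simpa using this
    · intro a _ b _ h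
      exact sub_left_injective h

/-- bound for the multiplicities of primes in `m`. -/
def B (K m : ℕ) : ℕ := 1 + 2 * ((Finset.Icc 2 K).filter fun d => d ^ 2 ∣ m).card

lemma factorization_le_B {K m q : ℕ} (hm : m ≠ 0) (hmK : m ≤ K) : m.factorization q ≤ B K m := by
  by_cases hq : q.Prime
  · unfold B
    set v := m.factorization q with hv
    have h1 : v / 2 ≤ ((Finset.Icc 2 K).filter fun d => d ^ 2 ∣ m).card := by
      have : (Finset.Icc 1 (v/2)).card = v / 2 := by simp
      rw [← this]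
      refine Finset.card_le_card_of_injOn (fun i => q ^ i) ?_ ?_
      · intro i hi
        simp only [Finset.coe_Icc, Set.mem_Icc] at hi
        have hdvd : (q ^ i) ^ 2 ∣ m := by
          rw [← pow_mul]
          refine dvd_trans (pow_dvd_pow q ?_) (Nat.ordProj_dvd m q)
          omega
        simp only [Finset.coe_filter, Finset.mem_Icc, Set.mem_ofPred_eq]
        refine ⟨⟨?_, ?_⟩, hdvd⟩
        · calc 2 ≤ q := hq.two_le
            _ = q ^ 1 := (pow_one q).symm
            _ ≤ q ^ i := Nat.pow_le_pow_right hq.pos hi.1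
        · have h3 : (q ^ i) ^ 2 ≤ m := Nat.le_of_dvd (Nat.pos_of_ne_zero hm) hdvd
          have h4 : q ^ i ≤ (q ^ i) ^ 2 := Nat.le_self_pow (by norm_num) _
          omega
      · intro a _ b _ h
        exact Nat.pow_right_injective hq.two_le h
    omega
  · rw [Nat.factorization_eq_zero_of_not_prime _ hq]; exact Nat.zero_le _

lemma sum_inv_sq_le (a b : ℕ) (ha : 2 ≤ a) : 
    ∑ d ∈ Finset.Ico a b, (1 : ℝ) / (d : ℝ) ^ 2 ≤ 1 / ((a : ℝ) - 1) := by
  have key : ∀ b, a ≤ b → ∑ d ∈ Finset.Ico a b, (1 : ℝ) / (d : ℝ) ^ 2 ≤ 1 / ((a : ℝ) - 1) - 1 / ((b : ℝ) - 1) := by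
    intro b hb
    induction b, hb using Nat.le_induction with
    | base => simp
    | succ n hn ih =>
      rw [Finset.sum_Ico_succ_top hn]
      have hn2 : (2 : ℝ) ≤ n := by exact_mod_cast ha.trans hn
      have : (1 : ℝ) / (n : ℝ) ^ 2 ≤ 1 / ((n : ℝ) - 1) - 1 / (((n + 1 : ℕ) : ℝ) - 1) := by
        push_cast
        have h1 : (0 : ℝ) < (n : ℝ) - 1 := by linarith
        have h2 : (0 : ℝ) < (n : ℝ) := by linarith
        rw [add_sub_cancel_right, div_sub_div _ _ h1.ne' h2.ne', div_le_div_iff₀ (by positivity) (by positivity)]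
        nlinarith
      linarith
  rcases le_or_gt a b with h | h
  · refine (key b h).trans ?_
    have : (2 : ℝ) ≤ b := by exact_mod_cast ha.trans h
    have : 0 ≤ 1 / ((b : ℝ) - 1) := by
      apply div_nonneg zero_le_one; linarith
    linarith
  · rw [Finset.Ico_eq_empty (by omega)]
    have : (2 : ℝ) ≤ a := by exact_mod_cast ha
    simp only [Finset.sum_empty]
    apply div_nonneg zero_le_one; linarith

lemma card_multiples (K d : ℕ) : ((Finset.Icc 1 K).filter fun m => d ∣ m).card = K / d := by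
  have := Nat.Ioc_filter_dvd_card_eq_div K d
  rw [← this]
  congr 1

lemma sum_B_le (K : ℕ) : (∑ m ∈ Finset.Icc 1 K, (B K m : ℝ)) ≤ 3 * K := by
  unfold B
  push_cast
  rw [Finset.sum_add_distrib]
  have h1 : ∑ m ∈ Finset.Icc 1 K, (1 : ℝ) = K := by simp
  rw [h1, ← Finset.mul_sum]
  have h2 : ∑ m ∈ Finset.Icc 1 K, ((((Finset.Icc 2 K).filter fun d => d ^ 2 ∣ m).card : ℕ) : ℝ)
      = ∑ d ∈ Finset.Icc 2 K, ((K / d ^ 2 : ℕ) : ℝ) := by
    rw [← Nat.cast_sum, ← Nat.cast_sum]
    congr 1
    simp_rw [Finset.card_filter]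
    rw [Finset.sum_comm]
    refine Finset.sum_congr rfl fun d _ => ?_
    rw [← card_multiples K (d^2), Finset.card_filter]
  rw [h2]
  have h3 : ∑ d ∈ Finset.Icc 2 K, ((K / d ^ 2 : ℕ) : ℝ) ≤ K := by
    calc ∑ d ∈ Finset.Icc 2 K, ((K / d ^ 2 : ℕ) : ℝ) ≤ ∑ d ∈ Finset.Icc 2 K, (K : ℝ) * (1 / (d : ℝ) ^ 2) := by
          refine Finset.sum_le_sum fun d hd => ?_
          have := @Nat.cast_div_le ℝ _ _ _ K (d ^ 2)
          rw [mul_one_div]
          exact_mod_cast this
      _ = K * ∑ d ∈ Finset.Ico 2 (K+1), (1 / (d : ℝ) ^ 2) := by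
          rw [Finset.mul_sum]; rfl
      _ ≤ K * (1 / ((2 : ℕ) - 1 : ℝ)) := by
          refine mul_le_mul_of_nonneg_left (sum_inv_sq_le 2 (K+1) le_rfl) (Nat.cast_nonneg _)
      _ = K := by norm_num
  linarith


/-- positive integers up to `K` all of whose prime factors are less than `n`. -/
noncomputable def S (n K : ℕ) : Finset ℕ := by
  classical exact (Finset.Icc 1 K).filter fun m => ∀ p : ℕ, p.Prime → p ∣ m → p < n

lemma mem_S {n K m : ℕ} : m ∈ S n K ↔ (1 ≤ m ∧ m ≤ K) ∧ ∀ p : ℕ, p.Prime → p ∣ m → p < n := by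
  classical
  simp [S]

lemma card_le_image_add {α : Type*} [DecidableEq α] (T : Finset ℕ) (f : ℕ → α) :
    T.card ≤ (T.image f).card + ((T ×ˢ T).filter fun ab => ab.1 < ab.2 ∧ f ab.1 = f ab.2).card := by
  classical
  rw [← Finset.card_filter_add_card_filter_not (s := T) (fun n => ∀ m ∈ T, m < n → f m ≠ f n)]
  refine add_le_add ?_ ?_
  · refine Finset.card_le_card_of_injOn f ?_ ?_
    · intro n hn
      have hn' := (Finset.mem_filter.1 (Finset.mem_coe.1 hn)).1
      exact Finset.mem_coe.2 (Finset.mem_image_of_mem f hn')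
    · intro a ha b hb hab
      have ha' := Finset.mem_filter.1 (Finset.mem_coe.1 ha)
      have hb' := Finset.mem_filter.1 (Finset.mem_coe.1 hb)
      by_contra hne
      rcases lt_or_gt_of_ne hne with h | h
      · exact hb'.2 a ha'.1 h hab
      · exact ha'.2 b hb'.1 h hab.symm
  · have : (T.filter fun n => ¬ ∀ m ∈ T, m < n → f m ≠ f n) ⊆
        ((T ×ˢ T).filter fun ab => ab.1 < ab.2 ∧ f ab.1 = f ab.2).image Prod.snd := by
      intro n hn
      rw [Finset.mem_filter] at hn
      obtain ⟨hnT, h⟩ := hn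
      push Not at h
      obtain ⟨m, hm, hlt, he⟩ := h
      rw [Finset.mem_image]
      exact ⟨(m, n), by simp [hm, hnT, hlt, he], rfl⟩
    exact (Finset.card_le_card this).trans Finset.card_image_le

lemma pair_bound {k : ℕ} [NeZero k] {K m n : ℕ} (hKk : K ≤ k) (hm1 : 1 ≤ m) (hmK : m ≤ K)
    (hn1 : 1 ≤ n) (hnK : n ≤ K) (hmn : m ≠ n) :
    (k : ℝ) * ∑ x : Fin (k + 1) → ZMod k, (if F x m = F x n then (1 : ℝ) else 0) ≤
      (B K m + B K n) * Fintype.card (Fin (k + 1) → ZMod k) := by
  classical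
  have hq : ∃ q, m.factorization q ≠ n.factorization q := by
    by_contra h
    push Not at h
    exact hmn (Nat.eq_of_factorization_eq (by omega) (by omega) h)
  obtain ⟨q, hq⟩ := hq
  have hqp : q.Prime := by
    by_contra h
    exact hq (by rw [Nat.factorization_eq_zero_of_not_prime _ h, Nat.factorization_eq_zero_of_not_prime _ h])
  have hqk : q < k + 1 := by
    rcases Nat.eq_zero_or_pos (m.factorization q) with h | h
    · have h2 : n.factorization q ≠ 0 := by omega
      have h3 : q ∣ n := Nat.dvd_of_factorization_pos h2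
      have := Nat.le_of_dvd (by omega) h3
      omega
    · have h3 : q ∣ m := Nat.dvd_of_factorization_pos (by omega)
      have := Nat.le_of_dvd (by omega) h3
      omega
  rw [← sum_shift ⟨q, hqk⟩]
  rw [← Finset.card_univ, mul_comm, ← nsmul_eq_mul]
  refine Finset.sum_le_card_nsmul _ _ _ ?_
  intro x _
  simp only [F_shift]
  rw [Finset.sum_boole]
  have hBm : m.factorization q ≤ B K m := factorization_le_B (by omega) hmK
  have hBn : n.factorization q ≤ B K n := factorization_le_B (by omega) hnK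
  rcases lt_or_gt_of_ne hq with h | h
  · have h1 : (Finset.univ.filter fun c : ZMod k =>
        F x m + m.factorization q • c = F x n + n.factorization q • c).card ≤
        n.factorization q - m.factorization q := by
      refine le_trans (Finset.card_le_card ?_) (card_smul_eq_le (k := k) (n.factorization q - m.factorization q) (by omega) (F x m - F x n))
      intro c hc
      simp only [Finset.mem_filter, Finset.mem_univ, true_and] at hc ⊢
      rw [sub_nsmul _ (le_of_lt h)]
      linear_combination -hc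
    have h2 : (Finset.univ.filter fun c : ZMod k =>
        F x m + m.factorization q • c = F x n + n.factorization q • c).card ≤ B K m + B K n := by omega
    exact_mod_cast h2
  · have h1 : (Finset.univ.filter fun c : ZMod k =>
        F x m + m.factorization q • c = F x n + n.factorization q • c).card ≤
        m.factorization q - n.factorization q := by
      refine le_trans (Finset.card_le_card ?_) (card_smul_eq_le (k := k) (m.factorization q - n.factorization q) (by omega) (F x n - F x m))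
      intro c hc
      simp only [Finset.mem_filter, Finset.mem_univ, true_and] at hc ⊢
      rw [sub_nsmul _ (le_of_lt h)]
      linear_combination hc
    have h2 : (Finset.univ.filter fun c : ZMod k =>
        F x m + m.factorization q • c = F x n + n.factorization q • c).card ≤ B K m + B K n := by omega
    exact_mod_cast h2


/-- number of colliding pairs `a < b` in `S n K`. -/
noncomputable def coll {k : ℕ} (x : Fin (k + 1) → ZMod k) (n K : ℕ) : ℕ :=
  ((S n K ×ˢ S n K).filter fun ab => ab.1 < ab.2 ∧ F x ab.1 = F x ab.2).card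

lemma coll_bound {k : ℕ} [NeZero k] {K : ℕ} (hKk : K ≤ k) (n : ℕ) :
    (k : ℝ) * ∑ x : Fin (k + 1) → ZMod k, (coll x n K : ℝ) ≤
      6 * (K : ℝ) ^ 2 * Fintype.card (Fin (k + 1) → ZMod k) := by
  classical
  have h1 : ∀ x : Fin (k + 1) → ZMod k, (coll x n K : ℝ) ≤
      ∑ ab ∈ ((Finset.Icc 1 K ×ˢ Finset.Icc 1 K).filter fun ab => ab.1 < ab.2),
        (if F x ab.1 = F x ab.2 then (1 : ℝ) else 0) := by
    intro x
    rw [Finset.sum_boole]
    unfold coll
    rw [Finset.filter_filter]
    refine Nat.cast_le.2 (Finset.card_le_card ?_)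
    intro ab hab
    simp only [Finset.mem_filter, Finset.mem_product, mem_S, Finset.mem_Icc] at hab ⊢
    exact ⟨⟨hab.1.1.1, hab.1.2.1⟩, hab.2⟩
  calc (k : ℝ) * ∑ x : Fin (k + 1) → ZMod k, (coll x n K : ℝ)
      ≤ (k : ℝ) * ∑ x : Fin (k + 1) → ZMod k, 
          ∑ ab ∈ ((Finset.Icc 1 K ×ˢ Finset.Icc 1 K).filter fun ab => ab.1 < ab.2),
        (if F x ab.1 = F x ab.2 then (1 : ℝ) else 0) := by
        refine mul_le_mul_of_nonneg_left (Finset.sum_le_sum fun x _ => h1 x) (Nat.cast_nonneg _)
    _ = ∑ ab ∈ ((Finset.Icc 1 K ×ˢ Finset.Icc 1 K).filter fun ab => ab.1 < ab.2),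
          (k : ℝ) * ∑ x : Fin (k + 1) → ZMod k, (if F x ab.1 = F x ab.2 then (1 : ℝ) else 0) := by
        rw [Finset.sum_comm, Finset.mul_sum]
    _ ≤ ∑ ab ∈ ((Finset.Icc 1 K ×ˢ Finset.Icc 1 K).filter fun ab => ab.1 < ab.2),
          ((B K ab.1 + B K ab.2 : ℝ) * Fintype.card (Fin (k + 1) → ZMod k)) := by
        refine Finset.sum_le_sum fun ab hab => ?_
        simp only [Finset.mem_filter, Finset.mem_product, Finset.mem_Icc] at hab
        exact pair_bound hKk hab.1.1.1 hab.1.1.2 hab.1.2.1 hab.1.2.2 (ne_of_lt hab.2)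
    _ ≤ ∑ ab ∈ (Finset.Icc 1 K ×ˢ Finset.Icc 1 K),
          ((B K ab.1 + B K ab.2 : ℝ) * Fintype.card (Fin (k + 1) → ZMod k)) := by
        refine Finset.sum_le_sum_of_subset_of_nonneg (Finset.filter_subset _ _) fun _ _ _ => by positivity
    _ = (∑ a ∈ Finset.Icc 1 K, ∑ b ∈ Finset.Icc 1 K, (B K a + B K b : ℝ)) * Fintype.card (Fin (k + 1) → ZMod k) := by
        rw [Finset.sum_product, Finset.sum_mul]
        refine Finset.sum_congr rfl fun a _ => ?_
        rw [Finset.sum_mul]
    _ ≤ 6 * (K : ℝ) ^ 2 * Fintype.card (Fin (k + 1) → ZMod k) := by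
        refine mul_le_mul_of_nonneg_right ?_ (Nat.cast_nonneg _)
        simp only [Finset.sum_add_distrib, Finset.sum_const, Nat.card_Icc, Nat.add_sub_cancel, nsmul_eq_mul]
        rw [← Finset.mul_sum]
        have := sum_B_le K
        have hK : (0 : ℝ) ≤ K := Nat.cast_nonneg _
        nlinarith

/-- number of uncovered residues. -/
noncomputable def U {k : ℕ} [NeZero k] (x : Fin (k + 1) → ZMod k) (n : ℕ) : ℕ :=
  (Finset.univ.filter fun v : ZMod k => v ∉ (S n k).image (F x)).card

lemma U_le {k : ℕ} [NeZero k] (x : Fin (k + 1) → ZMod k) (n : ℕ) : U x n ≤ k := by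
  unfold U
  refine (Finset.card_filter_le _ _).trans ?_
  simp [ZMod.card]

lemma F_shift_of_mem_S {k : ℕ} (x : Fin (k + 1) → ZMod k) {p : ℕ} (hpk : p < k + 1) (c : ZMod k) 
    {m K : ℕ} (hm : m ∈ S p K) : F (x + Pi.single ⟨p, hpk⟩ c) m = F x m := by
  rw [F_shift]
  have : m.factorization p = 0 := by
    rw [mem_S] at hm
    by_contra h
    have h1 : p ∈ m.primeFactors := by
      rw [← Nat.support_factorization]; exact Finsupp.mem_support_iff.2 h
    have h2 := hm.2 p (Nat.prime_of_mem_primeFactors h1) (Nat.dvd_of_mem_primeFactors h1)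
    exact lt_irrefl _ h2
  simp [this]

lemma step_mul {k : ℕ} [NeZero k] {p : ℕ} (hp : p.Prime) (hpk : p < k + 1) :
    (k : ℝ) * ∑ x : Fin (k + 1) → ZMod k, (U x (p + 1) : ℝ) ≤
      ∑ x : Fin (k + 1) → ZMod k, (U x p : ℝ) * ((k : ℝ) - ((S p (k / p)).image (F x)).card) := by
  classical
  set Ψ : (Fin (k + 1) → ZMod k) → ℝ := fun x =>
    ((Finset.univ.filter fun v : ZMod k => v ∉ (S p k).image (F x) ∧
      v - x ⟨p, hpk⟩ ∉ (S p (k / p)).image (F x)).card : ℝ) with hΨ
  have h1 : ∀ x, (U x (p + 1) : ℝ) ≤ Ψ x := by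
    intro x
    unfold U
    refine Nat.cast_le.2 (Finset.card_le_card ?_)
    intro v hv
    simp only [Finset.mem_filter, Finset.mem_univ, true_and, Finset.mem_image, not_exists, not_and] at hv ⊢
    refine ⟨fun m hm => hv m ?_, fun m hm h => hv (p * m) ?_ ?_⟩
    · rw [mem_S] at hm ⊢
      exact ⟨hm.1, fun q hq hqm => (hm.2 q hq hqm).trans (Nat.lt_succ_self p)⟩
    · rw [mem_S] at hm ⊢
      refine ⟨⟨?_, ?_⟩, fun q hq hqm => ?_⟩
      · exact Nat.mul_pos hp.pos hm.1.1
      · calc p * m ≤ p * (k / p) := Nat.mul_le_mul_left p hm.1.2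
          _ ≤ k := Nat.mul_div_le k p
      · rcases (Nat.Prime.dvd_mul hq).1 hqm with h | h
        · rw [(Nat.prime_dvd_prime_iff_eq hq hp).1 h]; exact Nat.lt_succ_self p
        · exact (hm.2 q hq h).trans (Nat.lt_succ_self p)
    · rw [mem_S] at hm
      rw [F_mul x hp.ne_zero (by omega), F_prime x hp hpk, h]
      ring
  have h2 : (k : ℝ) * ∑ x : Fin (k + 1) → ZMod k, (U x (p + 1) : ℝ) ≤ ∑ x : Fin (k + 1) → ZMod k, ∑ c : ZMod k, Ψ (x + Pi.single ⟨p, hpk⟩ c) := by
    rw [sum_shift]
    exact mul_le_mul_of_nonneg_left (Finset.sum_le_sum fun x _ => h1 x) (Nat.cast_nonneg _)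
  refine h2.trans (le_of_eq (Finset.sum_congr rfl fun x _ => ?_))
  have hA : ∀ c : ZMod k, (S p k).image (F (x + Pi.single ⟨p, hpk⟩ c)) = (S p k).image (F x) := by
    intro c
    exact Finset.image_congr fun m hm => F_shift_of_mem_S x hpk c hm
  have hB : ∀ c : ZMod k, (S p (k / p)).image (F (x + Pi.single ⟨p, hpk⟩ c)) = (S p (k / p)).image (F x) := by
    intro c
    exact Finset.image_congr fun m hm => F_shift_of_mem_S x hpk c hm
  simp only [hΨ, hA, hB, Pi.add_apply, Pi.single_eq_same]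
  set A := (S p k).image (F x)
  set D := (S p (k / p)).image (F x)
  rw [← Nat.cast_sum]
  have h3 : ∑ c : ZMod k, (Finset.univ.filter fun v : ZMod k => v ∉ A ∧ v - (x ⟨p, hpk⟩ + c) ∉ D).card
      = U x p * (k - D.card) := by
    simp_rw [Finset.card_filter]
    rw [Finset.sum_comm]
    have h4 : ∀ v : ZMod k, ∑ c : ZMod k, (if v ∉ A ∧ v - (x ⟨p, hpk⟩ + c) ∉ D then 1 else 0) =
        if v ∉ A then (k - D.card) else 0 := by
      intro v
      by_cases hv : v ∈ A
      · simp [hv]
      · simp only [hv, not_false_eq_true, true_and, if_true]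
        rw [← Finset.card_filter]
        have h5 : (Finset.univ.filter fun c : ZMod k => v - (x ⟨p, hpk⟩ + c) ∉ D).card = (Finset.univ.filter fun c : ZMod k => c ∉ D).card := by
          refine Finset.card_bij' (fun c _ => v - (x ⟨p, hpk⟩ + c)) (fun c _ => v - x ⟨p, hpk⟩ - c) ?_ ?_ ?_ ?_
          · intro c hc; simpa using hc
          · intro c hc
            simp only [Finset.mem_filter, Finset.mem_univ, true_and] at hc ⊢
            convert hc using 2
            ring
          · intro c _; ring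
          · intro c _; ring
        rw [h5]
        have h6 : (Finset.univ.filter fun c : ZMod k => c ∉ D) = Dᶜ := by
          ext c; simp
        rw [h6, Finset.card_compl, ZMod.card]
    simp_rw [h4]
    rw [← Finset.sum_filter, Finset.sum_const, smul_eq_mul]
    rfl
  rw [h3]
  have hD : D.card ≤ k := by
    have := Finset.card_le_univ D
    rwa [ZMod.card] at this
  push_cast [Nat.cast_sub hD]
  rfl


lemma step {k : ℕ} [NeZero k] {p : ℕ} (hp : p.Prime) (hpk : p < k + 1) :
    ∑ x : Fin (k + 1) → ZMod k, (U x (p + 1) : ℝ) ≤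
      (1 - ((S p (k / p)).card : ℝ) / k) * ∑ x : Fin (k + 1) → ZMod k, (U x p : ℝ) +
        6 * k / (p : ℝ) ^ 2 * Fintype.card (Fin (k + 1) → ZMod k) := by
  classical
  have hk : (0 : ℝ) < k := Nat.cast_pos.2 (Nat.pos_of_ne_zero (NeZero.ne k))
  have hp0 : (0 : ℝ) < p := Nat.cast_pos.2 hp.pos
  have h1 := step_mul (k := k) hp hpk
  have h2 := coll_bound (k := k) (K := k / p) (Nat.div_le_self k p) p
  have h3 : ∑ x : Fin (k + 1) → ZMod k, (U x p : ℝ) * ((k : ℝ) - ((S p (k / p)).image (F x)).card) ≤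
      ((k : ℝ) - (S p (k / p)).card) * ∑ x : Fin (k + 1) → ZMod k, (U x p : ℝ) +
        k * ∑ x : Fin (k + 1) → ZMod k, (coll x p (k / p) : ℝ) := by
    rw [Finset.mul_sum, Finset.mul_sum, ← Finset.sum_add_distrib]
    refine Finset.sum_le_sum fun x _ => ?_
    have h4 : ((S p (k / p)).card : ℝ) ≤ ((S p (k / p)).image (F x)).card + coll x p (k / p) := by
      exact_mod_cast card_le_image_add (S p (k / p)) (F x)
    have h5 : (U x p : ℝ) ≤ k := by exact_mod_cast U_le x p
    have h6 : (0 : ℝ) ≤ U x p := Nat.cast_nonneg _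
    have h7 : (0 : ℝ) ≤ coll x p (k / p) := Nat.cast_nonneg _
    nlinarith
  have h8 : ((k / p : ℕ) : ℝ) ≤ (k : ℝ) / p := Nat.cast_div_le
  have h9 : ((k / p : ℕ) : ℝ) ^ 2 ≤ ((k : ℝ) / p) ^ 2 := pow_le_pow_left₀ (Nat.cast_nonneg _) h8 2
  have hX : (0 : ℝ) ≤ Fintype.card (Fin (k + 1) → ZMod k) := Nat.cast_nonneg _
  have h10 : (k : ℝ) * ∑ x : Fin (k + 1) → ZMod k, (U x (p + 1) : ℝ) ≤
      (k : ℝ) * ((1 - ((S p (k / p)).card : ℝ) / k) * ∑ x : Fin (k + 1) → ZMod k, (U x p : ℝ) +
        6 * k / (p : ℝ) ^ 2 * Fintype.card (Fin (k + 1) → ZMod k)) := by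
    have e1 : (k : ℝ) * ((1 - ((S p (k / p)).card : ℝ) / k) * ∑ x : Fin (k + 1) → ZMod k, (U x p : ℝ) +
        6 * k / (p : ℝ) ^ 2 * Fintype.card (Fin (k + 1) → ZMod k)) = 
        ((k : ℝ) - (S p (k / p)).card) * ∑ x : Fin (k + 1) → ZMod k, (U x p : ℝ) +
        6 * ((k : ℝ) / p) ^ 2 * Fintype.card (Fin (k + 1) → ZMod k) := by
      field_simp
    rw [e1]
    have h11 : 6 * ((k / p : ℕ) : ℝ) ^ 2 * Fintype.card (Fin (k + 1) → ZMod k) ≤ 
        6 * ((k : ℝ) / p) ^ 2 * Fintype.card (Fin (k + 1) → ZMod k) := by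
      refine mul_le_mul_of_nonneg_right (mul_le_mul_of_nonneg_left h9 (by norm_num)) hX
    linarith
  exact le_of_mul_le_mul_left h10 hk

lemma S_succ_of_not_prime {n K : ℕ} (hn : ¬ n.Prime) : S (n + 1) K = S n K := by
  ext m
  rw [mem_S, mem_S]
  refine and_congr Iff.rfl (forall_congr' fun q => forall_congr' fun hq => forall_congr' fun _ => ?_)
  constructor
  · intro h
    rcases Nat.lt_succ_iff_lt_or_eq.1 h with h | h
    · exact h
    · exact absurd (h ▸ hq) hn
  · intro h; omega

/-- total size of the blocks. -/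
noncomputable def D (k y n : ℕ) : ℝ :=
  ∑ p ∈ (Finset.Ico y n).filter Nat.Prime, ((S p (k / p)).card : ℝ)

lemma S_card_le (n K : ℕ) : (S n K).card ≤ K := by
  classical
  unfold S
  exact (Finset.card_filter_le _ _).trans (by simp)

lemma recursion {k : ℕ} [NeZero k] {y : ℕ} (hy : 2 ≤ y) {n : ℕ} (hyn : y ≤ n) (hnk : n ≤ k + 1) :
    ∑ x : Fin (k + 1) → ZMod k, (U x n : ℝ) ≤
      (k * Real.exp (-(D k y n / k)) + 6 * k * (1 / ((y : ℝ) - 1) - 1 / ((n : ℝ) - 1))) *
        Fintype.card (Fin (k + 1) → ZMod k) := by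
  classical
  have hk : (0 : ℝ) < k := Nat.cast_pos.2 (Nat.pos_of_ne_zero (NeZero.ne k))
  have hX : (0 : ℝ) ≤ Fintype.card (Fin (k + 1) → ZMod k) := Nat.cast_nonneg _
  induction n, hyn using Nat.le_induction with
  | base =>
    simp only [D, Finset.Ico_self, Finset.filter_empty, Finset.sum_empty, zero_div, neg_zero, Real.exp_zero, mul_one, sub_self,
      mul_zero, add_zero]
    rw [mul_comm, ← nsmul_eq_mul, ← Finset.card_univ]
    exact Finset.sum_le_card_nsmul _ _ _ fun x _ => by exact_mod_cast U_le x y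
  | succ n hn ih =>
    have ih := ih (by omega)
    have hn2 : (2 : ℝ) ≤ n := by exact_mod_cast hy.trans hn
    have hn1 : (0 : ℝ) < (n : ℝ) - 1 := by linarith
    have hn0 : (0 : ℝ) < (n : ℝ) := by linarith
    have hy1 : (1 : ℝ) < y := by exact_mod_cast hy
    have hmono : 1 / (n : ℝ) ≤ 1 / ((n : ℝ) - 1) := one_div_le_one_div_of_le hn1 (by linarith)
    have hyn' : 1 / ((n : ℝ) - 1) ≤ 1 / ((y : ℝ) - 1) := by
      refine one_div_le_one_div_of_le (by linarith) ?_
      have : (y : ℝ) ≤ n := by exact_mod_cast hn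
      linarith
    by_cases hp : n.Prime
    · have hst := step (k := k) hp (by omega)
      have hN : ((S n (k / n)).card : ℝ) ≤ k := by
        exact_mod_cast (S_card_le n (k / n)).trans (Nat.div_le_self k n)
      set N : ℝ := ((S n (k / n)).card : ℝ) with hNdef
      have hN0 : 0 ≤ N := Nat.cast_nonneg _
      have hNk : 0 ≤ 1 - N / k := by
        rw [sub_nonneg, div_le_one hk]; exact hN
      have hD : D k y (n + 1) = D k y n + N := by
        unfold D
        rw [← Finset.insert_Ico_right_eq_Ico_add_one hn, Finset.filter_insert, if_pos hp, Finset.sum_insert]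
        · ring
        · simp
      have hexp : 1 - N / k ≤ Real.exp (-(N / k)) := by
        have := Real.add_one_le_exp (-(N / k))
        linarith
      have e2 : (k : ℝ) * Real.exp (-(D k y (n + 1) / k)) = k * Real.exp (-(D k y n / k)) * Real.exp (-(N / k)) := by
        rw [hD, mul_assoc, ← Real.exp_add]
        congr 2
        ring
      set Ex := Real.exp (-(D k y n / k)) with hEx
      have hExpos : 0 < Ex := Real.exp_pos _
      have h6 : 6 * (k : ℝ) / (n : ℝ) ^ 2 ≤ 6 * k * (1 / ((n : ℝ) - 1) - 1 / (n : ℝ)) := by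
        have : (1 : ℝ) / (n : ℝ) ^ 2 ≤ 1 / ((n : ℝ) - 1) - 1 / (n : ℝ) := by
          rw [div_sub_div _ _ hn1.ne' hn0.ne', div_le_div_iff₀ (by positivity) (by positivity)]
          nlinarith
        have h7 := mul_le_mul_of_nonneg_left this (by positivity : (0 : ℝ) ≤ 6 * k)
        rw [mul_one_div] at h7
        exact h7
      have h8 : (1 - N / k) * ∑ x : Fin (k + 1) → ZMod k, (U x n : ℝ) ≤
          (k * Ex * Real.exp (-(N / k)) + 6 * k * (1 / ((y : ℝ) - 1) - 1 / ((n : ℝ) - 1))) *
          Fintype.card (Fin (k + 1) → ZMod k) := by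
        refine (mul_le_mul_of_nonneg_left ih hNk).trans ?_
        rw [← mul_assoc]
        refine mul_le_mul_of_nonneg_right ?_ hX
        rw [mul_add]
        refine add_le_add ?_ ?_
        · have := mul_le_mul_of_nonneg_left hexp (by positivity : (0 : ℝ) ≤ k * Ex)
          linarith
        · have h9 : 0 ≤ 6 * (k : ℝ) * (1 / ((y : ℝ) - 1) - 1 / ((n : ℝ) - 1)) :=
            mul_nonneg (by positivity) (by linarith)
          have h10 : 1 - N / k ≤ 1 := by
            have : 0 ≤ N / k := by positivity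
            linarith
          nlinarith
      have h11 : 6 * (k : ℝ) / (n : ℝ) ^ 2 * Fintype.card (Fin (k + 1) → ZMod k) ≤
          6 * k * (1 / ((n : ℝ) - 1) - 1 / (n : ℝ)) * Fintype.card (Fin (k + 1) → ZMod k) :=
        mul_le_mul_of_nonneg_right h6 hX
      rw [e2]
      push_cast
      rw [add_sub_cancel_right]
      calc _ ≤ _ := hst
        _ ≤ _ := add_le_add h8 h11
        _ = _ := by ring
    · have hU : ∀ x : Fin (k + 1) → ZMod k, U x (n + 1) = U x n := by
        intro x; unfold U; rw [S_succ_of_not_prime hp]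
      have hD : D k y (n + 1) = D k y n := by
        unfold D
        rw [← Finset.insert_Ico_right_eq_Ico_add_one hn, Finset.filter_insert, if_neg hp]
      simp only [hU, hD]
      refine ih.trans (mul_le_mul_of_nonneg_right ?_ hX)
      push_cast
      rw [add_sub_cancel_right]
      refine add_le_add le_rfl (mul_le_mul_of_nonneg_left ?_ (by positivity))
      linarith


lemma D_lower {k : ℕ} {y : ℕ} (hy : 2 ≤ y) :
    (k : ℝ) - (S y k).card - k / ((y : ℝ) - 1) ≤ D k y (k + 1) := by
  classical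
  have hsub : Finset.Icc 1 k ⊆ S y k ∪
      ((Finset.Ico y (k + 1)).biUnion fun d => (Finset.Icc 1 k).filter fun m => d ^ 2 ∣ m) ∪
      (((Finset.Ico y (k + 1)).filter Nat.Prime).biUnion fun p => (S p (k / p)).image fun m => p * m) := by
    intro n hn
    rw [Finset.mem_Icc] at hn
    by_cases h1 : n ∈ S y k
    · exact Finset.mem_union_left _ (Finset.mem_union_left _ h1)
    by_cases h2 : ∃ d, y ≤ d ∧ d ^ 2 ∣ n
    · obtain ⟨d, hyd, hd⟩ := h2
      refine Finset.mem_union_left _ (Finset.mem_union_right _ ?_)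
      rw [Finset.mem_biUnion]
      refine ⟨d, ?_, ?_⟩
      · rw [Finset.mem_Ico]
        have h3 : d ^ 2 ≤ n := Nat.le_of_dvd (by omega) hd
        have h4 : d ≤ d ^ 2 := Nat.le_self_pow (by norm_num) _
        omega
      · rw [Finset.mem_filter, Finset.mem_Icc]
        exact ⟨hn, hd⟩
    · refine Finset.mem_union_right _ ?_
      push Not at h2
      -- the largest prime factor
      have hne : n.primeFactors.Nonempty := by
        rw [Nat.nonempty_primeFactors]
        by_contra h
        have : n = 1 := by omega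
        apply h1
        rw [mem_S, this]
        refine ⟨⟨le_rfl, by omega⟩, fun p hp hp1 => ?_⟩
        exact absurd (Nat.le_of_dvd one_pos hp1) (by have := hp.two_le; omega)
      set p := n.primeFactors.max' hne with hpdef
      have hpmem : p ∈ n.primeFactors := Finset.max'_mem _ _
      have hp := Nat.prime_of_mem_primeFactors hpmem
      have hpn := Nat.dvd_of_mem_primeFactors hpmem
      have hyp : y ≤ p := by
        by_contra hlt
        push Not at hlt
        apply h1
        rw [mem_S]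
        refine ⟨hn, fun q hq hqn => ?_⟩
        have : q ≤ p := Finset.le_max' _ _ (Nat.mem_primeFactors.2 ⟨hq, hqn, by omega⟩)
        omega
      obtain ⟨m, hnm⟩ := hpn
      rw [Finset.mem_biUnion]
      have hm0 : 0 < m := by
        rcases Nat.eq_zero_or_pos m with h | h
        · rw [h] at hnm; omega
        · exact h
      have hpk : p ≤ k := le_trans (Nat.le_mul_of_pos_right p hm0) (hnm ▸ hn.2)
      refine ⟨p, ?_, ?_⟩
      · rw [Finset.mem_filter, Finset.mem_Ico]
        exact ⟨⟨hyp, by omega⟩, hp⟩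
      · rw [Finset.mem_image]
        refine ⟨m, ?_, hnm.symm⟩
        rw [mem_S]
        refine ⟨⟨hm0, ?_⟩, fun q hq hqm => ?_⟩
        · rw [Nat.le_div_iff_mul_le hp.pos, mul_comm, ← hnm]; exact hn.2
        · have hqn : q ∣ n := hnm ▸ Dvd.dvd.mul_left hqm p
          have : q ≤ p := Finset.le_max' _ _ (Nat.mem_primeFactors.2 ⟨hq, hqn, by omega⟩)
          refine lt_of_le_of_ne this ?_
          rintro heq
          apply h2 p hyp
          rw [hnm, sq]
          refine Nat.mul_dvd_mul_left p ?_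
          have := hqm
          rwa [heq] at this
  have hcard := (Finset.card_le_card hsub).trans ((Finset.card_union_le _ _).trans
    (add_le_add (Finset.card_union_le _ _) le_rfl))
  have h1 : (((Finset.Ico y (k + 1)).biUnion fun d => (Finset.Icc 1 k).filter fun m => d ^ 2 ∣ m).card : ℝ) ≤
      k / ((y : ℝ) - 1) := by
    calc (((Finset.Ico y (k + 1)).biUnion fun d => (Finset.Icc 1 k).filter fun m => d ^ 2 ∣ m).card : ℝ)
        ≤ ((∑ d ∈ Finset.Ico y (k + 1), ((Finset.Icc 1 k).filter fun m => d ^ 2 ∣ m).card : ℕ) : ℝ) := by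
          exact_mod_cast Finset.card_biUnion_le
      _ = ∑ d ∈ Finset.Ico y (k + 1), ((k / d ^ 2 : ℕ) : ℝ) := by
          push_cast [card_multiples]
          rfl
      _ ≤ ∑ d ∈ Finset.Ico y (k + 1), (k : ℝ) * (1 / (d : ℝ) ^ 2) := by
          refine Finset.sum_le_sum fun d _ => ?_
          have := @Nat.cast_div_le ℝ _ _ _ k (d ^ 2)
          rw [mul_one_div]
          exact_mod_cast this
      _ = k * ∑ d ∈ Finset.Ico y (k+1), (1 / (d : ℝ) ^ 2) := by
          rw [Finset.mul_sum]
      _ ≤ k * (1 / ((y : ℝ) - 1)) := by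
          refine mul_le_mul_of_nonneg_left (sum_inv_sq_le y (k+1) hy) (Nat.cast_nonneg _)
      _ = k / ((y : ℝ) - 1) := by ring
  have h2 : ((((Finset.Ico y (k + 1)).filter Nat.Prime).biUnion fun p => (S p (k / p)).image fun m => p * m).card : ℝ) ≤
      D k y (k + 1) := by
    unfold D
    calc ((((Finset.Ico y (k + 1)).filter Nat.Prime).biUnion fun p => (S p (k / p)).image fun m => p * m).card : ℝ)
        ≤ ((∑ p ∈ (Finset.Ico y (k + 1)).filter Nat.Prime, ((S p (k / p)).image fun m => p * m).card : ℕ) : ℝ) := by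
          exact_mod_cast Finset.card_biUnion_le
      _ ≤ _ := by
          push_cast
          refine Finset.sum_le_sum fun p _ => ?_
          exact_mod_cast Finset.card_image_le
  have h3 : ((Finset.Icc 1 k).card : ℝ) = k := by simp
  have h4 : ((Finset.Icc 1 k).card : ℝ) ≤ (S y k).card +
     (((Finset.Ico y (k + 1)).biUnion fun d => (Finset.Icc 1 k).filter fun m => d ^ 2 ∣ m).card : ℝ) +
     ((((Finset.Ico y (k + 1)).filter Nat.Prime).biUnion fun p => (S p (k / p)).image fun m => p * m).card : ℝ) := by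
    exact_mod_cast hcard
  rw [h3] at h4
  linarith

lemma S_card_sqrt (y k : ℕ) : ((S y k).card : ℝ) ≤ 2 ^ y * Real.sqrt k := by
  classical
  have h1 : S y k ⊆ Nat.smoothNumbersUpTo k y := by
    intro m hm
    rw [mem_S] at hm
    rw [Nat.mem_smoothNumbersUpTo]
    exact ⟨hm.1.2, Nat.mem_smoothNumbers'.2 hm.2⟩
  have h2 := (Finset.card_le_card h1).trans (Nat.smoothNumbersUpTo_card_le k y)
  have h3 : (y.primesBelow).card ≤ y := by
    unfold Nat.primesBelow
    exact (Finset.card_filter_le _ _).trans (by simp)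
  have h4 : ((S y k).card : ℝ) ≤ 2 ^ (y.primesBelow).card * (Nat.sqrt k : ℝ) := by exact_mod_cast h2
  refine h4.trans (mul_le_mul ?_ Real.nat_sqrt_le_real_sqrt (Nat.cast_nonneg _) (by positivity))
  exact pow_le_pow_right₀ (by norm_num) h3

/-- existence of a completely additive function with few uncovered residues -/
lemma exists_good {k : ℕ} [NeZero k] {y : ℕ} (hy : 2 ≤ y) (hyk : y ≤ k + 1) :
    ∃ x : Fin (k + 1) → ZMod k, (U x (k + 1) : ℝ) ≤
      k * Real.exp (-(1 - 2 ^ y * Real.sqrt k / k - 1 / ((y : ℝ) - 1))) + 6 * k / ((y : ℝ) - 1) := by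
  classical
  have hk : (0 : ℝ) < k := Nat.cast_pos.2 (Nat.pos_of_ne_zero (NeZero.ne k))
  have hrec := recursion (k := k) hy hyk le_rfl
  set b := (k * Real.exp (-(D k y (k + 1) / k)) + 6 * k * (1 / ((y : ℝ) - 1) - 1 / (((k + 1 : ℕ) : ℝ) - 1))) with hb
  have hex : ∃ x ∈ (Finset.univ : Finset (Fin (k + 1) → ZMod k)), (U x (k + 1) : ℝ) ≤ b := by
    refine Finset.exists_le_of_sum_le Finset.univ_nonempty ?_
    rw [Finset.sum_const, Finset.card_univ, nsmul_eq_mul, mul_comm]
    exact hrec
  obtain ⟨x, _, hx⟩ := hex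
  refine ⟨x, hx.trans ?_⟩
  rw [hb]
  have hD := D_lower (k := k) hy
  have hS := S_card_sqrt y k
  have hD2 : 1 - 2 ^ y * Real.sqrt k / k - 1 / ((y : ℝ) - 1) ≤ D k y (k + 1) / k := by
    rw [le_div_iff₀ hk]
    have : (1 - 2 ^ y * Real.sqrt k / k - 1 / ((y : ℝ) - 1)) * k = k - 2 ^ y * Real.sqrt k - k / ((y : ℝ) - 1) := by
      field_simp
    rw [this]
    linarith
  refine add_le_add ?_ ?_
  · refine mul_le_mul_of_nonneg_left (Real.exp_le_exp.2 (by linarith)) hk.le
  · have h1 : 0 ≤ 1 / (((k + 1 : ℕ) : ℝ) - 1) := by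
      push_cast
      rw [add_sub_cancel_right]
      positivity
    have : 6 * (k : ℝ) / ((y : ℝ) - 1) = 6 * k * (1 / ((y : ℝ) - 1)) := by ring
    rw [this]
    refine mul_le_mul_of_nonneg_left (by linarith) (by positivity)

/-! ### Definitions of the problem -/

/-- `f : [k] → ℤ/kℤ` is a logarithmic function of length `k`:
`f (a b) = f a + f b` whenever `a, b ∈ [k]` and `a b ≤ k`. -/
def IsLogarithmic (k : ℕ) (f : Set.Icc 1 k → ZMod k) : Prop :=
  ∀ a b c : Set.Icc 1 k, (a : ℕ) * (b : ℕ) = (c : ℕ) → f c = f a + f b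

/-- `M_k`, the maximum of `|f([k])|` over all logarithmic functions `f` of length `k`. -/
noncomputable def M (k : ℕ) : ℕ :=
  sSup {m : ℕ | ∃ f : Set.Icc 1 k → ZMod k, IsLogarithmic k f ∧ (Set.range f).ncard = m}

/-- `R_k`, the largest `R` with `1 ≤ R ≤ k` such that some logarithmic function of length `k`
is injective on the `R`-smooth elements of `[k]`. -/
noncomputable def R (k : ℕ) : ℕ :=
  sSup {r : ℕ | 1 ≤ r ∧ r ≤ k ∧ ∃ f : Set.Icc 1 k → ZMod k, IsLogarithmic k f ∧
    Set.InjOn f {n : Set.Icc 1 k | ∀ p : ℕ, p.Prime → p ∣ (n : ℕ) → p ≤ r}}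

lemma ncard_range_le {k : ℕ} [NeZero k] (f : Set.Icc 1 k → ZMod k) : (Set.range f).ncard ≤ k := by
  have := Set.ncard_le_card (Set.range f)
  simpa using this

lemma M_bdd (k : ℕ) [NeZero k] : BddAbove {m : ℕ | ∃ f : Set.Icc 1 k → ZMod k, IsLogarithmic k f ∧ (Set.range f).ncard = m} := by
  refine ⟨k, ?_⟩
  rintro m ⟨f, _, rfl⟩
  exact ncard_range_le f

lemma M_le (k : ℕ) [NeZero k] : M k ≤ k := by
  unfold M
  refine csSup_le' ?_
  rintro m ⟨f, _, rfl⟩
  exact ncard_range_le f

lemma le_M {k : ℕ} [NeZero k] (x : Fin (k + 1) → ZMod k) : (k : ℝ) - U x (k + 1) ≤ M k := by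
  classical
  have hf : IsLogarithmic k (fun n => F x (n : ℕ)) := by
    intro a b c h
    have ha := a.2.1
    have hb := b.2.1
    simp only
    rw [← h, F_mul x (by omega) (by omega)]
  have h1 : (Set.range (fun n : Set.Icc 1 k => F x (n : ℕ))).ncard ≤ M k := 
    le_csSup (M_bdd k) ⟨_, hf, rfl⟩
  have hS : S (k + 1) k = Finset.Icc 1 k := by
    ext m
    rw [mem_S, Finset.mem_Icc]
    constructor
    · exact fun h => h.1
    · intro h
      refine ⟨h, fun p _ hpm => ?_⟩
      have := Nat.le_of_dvd (by omega) hpm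
      omega
  have h2 : (Set.range (fun n : Set.Icc 1 k => F x (n : ℕ))) = ((S (k + 1) k).image (F x) : Finset (ZMod k)) := by
    rw [hS]
    ext v
    simp only [Set.mem_range, Subtype.exists, Finset.coe_image, Set.mem_image, Finset.coe_Icc]
    constructor
    · rintro ⟨a, ha, h⟩; exact ⟨a, ha, h⟩
    · rintro ⟨a, ha, h⟩; exact ⟨a, ha, h⟩
  rw [h2, Set.ncard_coe_finset] at h1
  have h3 : U x (k + 1) + ((S (k + 1) k).image (F x)).card = k := by
    unfold U
    have : (Finset.univ.filter fun v : ZMod k => v ∉ (S (k + 1) k).image (F x)) = ((S (k + 1) k).image (F x))ᶜ := by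
      ext v; simp
    rw [this, Finset.card_compl, ZMod.card]
    have := Finset.card_le_univ ((S (k + 1) k).image (F x))
    rw [ZMod.card] at this
    omega
  have h4 : (U x (k + 1) : ℝ) + (((S (k + 1) k).image (F x)).card : ℝ) = k := by exact_mod_cast h3
  have h5 : (((S (k + 1) k).image (F x)).card : ℝ) ≤ M k := by exact_mod_cast h1
  linarith

/-- asymptotic lower bound for `M_k`. -/
theorem M_lower (ε : ℝ) (hε : 0 < ε) :
    ∀ᶠ k : ℕ in atTop, (1 - Real.exp (-1) - ε) ≤ (M k : ℝ) / k := by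
  -- choose y
  have hlim1 : Tendsto (fun y : ℕ => Real.exp (-(1 - 2 * (1 / ((y : ℝ) - 1)))) + 6 / ((y : ℝ) - 1)) atTop
      (nhds (Real.exp (-(1 - 2 * 0)) + 0)) := by
    have h1 : Tendsto (fun y : ℕ => (y : ℝ) - 1) atTop atTop :=
      tendsto_atTop_add_const_right _ _ tendsto_natCast_atTop_atTop
    have h2 : Tendsto (fun y : ℕ => 1 / ((y : ℝ) - 1)) atTop (nhds 0) := by
      exact tendsto_const_nhds.div_atTop h1
    have h3 : Tendsto (fun y : ℕ => 6 / ((y : ℝ) - 1)) atTop (nhds 0) := by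
      exact tendsto_const_nhds.div_atTop h1
    refine Tendsto.add ?_ h3
    refine (Real.continuous_exp.tendsto _).comp ?_
    exact ((h2.const_mul 2).const_sub 1).neg
  have hlt : Real.exp (-(1 - 2 * 0)) + 0 < Real.exp (-1) + ε := by
    norm_num; linarith
  obtain ⟨y, hy, hy2⟩ := ((hlim1.eventually (gt_mem_nhds hlt)).and (eventually_ge_atTop 2)).exists
  have hy1 : (0 : ℝ) < (y : ℝ) - 1 := by
    have : (2 : ℝ) ≤ y := by exact_mod_cast hy2
    linarith
  -- choose k large
  have hlim2 : Tendsto (fun k : ℕ => 2 ^ y * Real.sqrt k / k) atTop (nhds 0) := by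
    have h1 : Tendsto (fun k : ℕ => Real.sqrt (k : ℝ)) atTop atTop :=
      Real.tendsto_sqrt_atTop.comp tendsto_natCast_atTop_atTop
    have h2 : Tendsto (fun k : ℕ => (2 : ℝ) ^ y * (Real.sqrt (k : ℝ))⁻¹) atTop (nhds ((2 : ℝ) ^ y * 0)) :=
      (tendsto_inv_atTop_zero.comp h1).const_mul _
    rw [mul_zero] at h2
    refine h2.congr' ?_
    filter_upwards [eventually_gt_atTop 0] with k hk
    have hk' : (0 : ℝ) < k := Nat.cast_pos.2 hk
    rw [mul_div_assoc, Real.sqrt_div_self]
  have hpos : (0 : ℝ) < 1 / ((y : ℝ) - 1) := by positivity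
  filter_upwards [hlim2.eventually (gt_mem_nhds hpos), eventually_ge_atTop y, eventually_gt_atTop 0] with k hk1 hk2 hk3
  have : NeZero k := ⟨by omega⟩
  have hk' : (0 : ℝ) < k := Nat.cast_pos.2 hk3
  obtain ⟨x, hx⟩ := exists_good (k := k) hy2 (by omega)
  have hM := le_M x
  rw [le_div_iff₀ hk']
  have h1 : Real.exp (-(1 - 2 ^ y * Real.sqrt k / k - 1 / ((y : ℝ) - 1))) ≤
      Real.exp (-(1 - 2 * (1 / ((y : ℝ) - 1)))) := Real.exp_le_exp.2 (by linarith)
  have h2 : k * Real.exp (-(1 - 2 ^ y * Real.sqrt k / k - 1 / ((y : ℝ) - 1))) + 6 * k / ((y : ℝ) - 1) ≤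
      k * (Real.exp (-1) + ε) := by
    have h3 : k * Real.exp (-(1 - 2 ^ y * Real.sqrt k / k - 1 / ((y : ℝ) - 1))) + 6 * k / ((y : ℝ) - 1) =
      k * (Real.exp (-(1 - 2 ^ y * Real.sqrt k / k - 1 / ((y : ℝ) - 1))) + 6 / ((y : ℝ) - 1)) := by ring
    rw [h3]
    refine mul_le_mul_of_nonneg_left ?_ hk'.le
    linarith
  linarith

/-- **Main result.** `liminf M_k / k ≥ 1 - 1/e`. In particular the statement
`liminf M_k / k = 0` and `liminf R_k / k = 0` is false. -/
theorem result :
    1 - Real.exp (-1) ≤ liminf (fun k : ℕ => (M k : ℝ) / k) atTop ∧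
    ¬ (liminf (fun k : ℕ => (M k : ℝ) / k) atTop = 0 ∧
       liminf (fun k : ℕ => (R k : ℝ) / k) atTop = 0) := by
  have hcobdd : IsCoboundedUnder (· ≥ ·) atTop (fun k : ℕ => (M k : ℝ) / k) := by
    refine IsBoundedUnder.isCoboundedUnder_ge ⟨1, ?_⟩
    rw [eventually_map]
    filter_upwards [eventually_gt_atTop 0] with k hk
    have : NeZero k := ⟨by omega⟩
    have hk' : (0 : ℝ) < k := Nat.cast_pos.2 hk
    rw [div_le_one hk']
    exact_mod_cast M_le k
  have h1 : 1 - Real.exp (-1) ≤ liminf (fun k : ℕ => (M k : ℝ) / k) atTop := by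
    refine le_of_forall_pos_sub_le fun ε hε => ?_
    exact le_liminf_of_le hcobdd (M_lower ε hε)
  have h2 : 0 < 1 - Real.exp (-1) := by
    have : Real.exp (-1) < 1 := by
      rw [Real.exp_lt_one_iff]; norm_num
    linarith
  exact ⟨h1, fun h => absurd h.1 (ne_of_gt (lt_of_lt_of_le h2 h1))⟩

end Pool.Agent.Results.MP_0b9f2e_nt.LiminfMk
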